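import Pool.Agent.helper95.PY2.Spec2

/-!
# Project pe (MP_f6e9a2_nt), row INE
-/

set_option autoImplicit false

open Finset

namespace Pool.Agent.PY2

private lemma INE_en {p : ℕ} (X : Finset (ZMod p)) : X.card ^ 2 ≤ en X := by
  classical
  unfold en
  have h : (X ×ˢ X).card = X.card ^ 2 := by rw [Finset.card_product, sq]
  rw [← h]
  refine Finset.card_le_card_of_injOn (fun w => ((w.1, w.1), (w.2, w.2))) ?_ ?_
  · intro w hw
    have hw' : w ∈ X ×ˢ X := hw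
    rw [Finset.mem_product] at hw'
    have : (((w.1, w.1), (w.2, w.2)) : (ZMod p × ZMod p) × (ZMod p × ZMod p)) ∈
        ((X ×ˢ X) ×ˢ (X ×ˢ X)).filter fun w => w.1.1 - w.1.2 = w.2.1 - w.2.2 := by
      rw [Finset.mem_filter]
      simp only [Finset.mem_product, sub_self, and_true]
      exact ⟨⟨hw'.1, hw'.1⟩, hw'.2, hw'.2⟩
    exact this
  · intro w _ w' _ h
    simp only [Prod.mk.injEq] at h
    exact Prod.ext h.1.1 h.2.1

private lemma INE_trivial (p : ℕ) [Fact p.Prime] (N : ℕ) (P : Finset (ZMod p))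
    (χ : MulChar (ZMod p) ℂ) (β : ZMod p → ℂ) (hβ : ∀ b, ‖β b‖ ≤ 1) :
    ∑ n ∈ range N, ‖∑ b ∈ P, β b * χ ((n : ZMod p) + b)‖ ≤ N * P.card := by
  calc ∑ n ∈ range N, ‖∑ b ∈ P, β b * χ ((n : ZMod p) + b)‖
      ≤ ∑ _n ∈ range N, (P.card : ℝ) := by
        refine Finset.sum_le_sum fun n _ => ?_
        refine (norm_sum_le _ _).trans ?_
        refine (Finset.sum_le_card_nsmul P _ 1 fun b _ => ?_).trans ?_
        · rw [norm_mul]
          have h5 : ‖χ ((n : ZMod p) + b)‖ ≤ 1 := Pool.Agent.helper82.Weil.norm_chi_le χ _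
          have := hβ b
          calc ‖β b‖ * ‖χ ((n : ZMod p) + b)‖ ≤ 1 * 1 := by gcongr
            _ = 1 := one_mul 1
        · rw [nsmul_eq_mul, mul_one]
    _ = N * P.card := by rw [Finset.sum_const, card_range, nsmul_eq_mul]

/-- One part. -/
private lemma INE_part (p : ℕ) [Fact p.Prime] (e d dX : ℝ) (hd1 : d ≤ e / 4) (hd2 : d ≤ dX) (N : ℕ)
    (B P : Finset (ZMod p)) (hPB : P ⊆ B)
    (χ : MulChar (ZMod p) ℂ) (β : ZMod p → ℂ) (hβ : ∀ b, ‖β b‖ ≤ 1)
    (h : (p : ℝ) ^ (-(e / 4)) * B.card ≤ P.card →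
      ∑ n ∈ range N, ‖∑ b ∈ P, β b * χ ((n : ZMod p) + b)‖ ≤ (p : ℝ) ^ (-dX) * N * P.card) :
    ∑ n ∈ range N, ‖∑ b ∈ P, β b * χ ((n : ZMod p) + b)‖ ≤ (p : ℝ) ^ (-d) * N * B.card := by
  have hp1 : (1 : ℝ) ≤ p := by
    have := (Fact.out : p.Prime).one_lt
    exact_mod_cast this.le
  have hp0 : (0 : ℝ) < p := by linarith
  have hcard : (P.card : ℝ) ≤ B.card := by exact_mod_cast Finset.card_le_card hPB
  have hN0 : (0 : ℝ) ≤ N := Nat.cast_nonneg _
  by_cases hc : (p : ℝ) ^ (-(e / 4)) * B.card ≤ P.card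
  · refine (h hc).trans ?_
    have h3 : (p : ℝ) ^ (-dX) ≤ (p : ℝ) ^ (-d) :=
      Real.rpow_le_rpow_of_exponent_le hp1 (by linarith)
    gcongr
  · rw [not_le] at hc
    refine (INE_trivial p N P χ β hβ).trans ?_
    have h3 : (p : ℝ) ^ (-(e / 4)) ≤ (p : ℝ) ^ (-d) :=
      Real.rpow_le_rpow_of_exponent_le hp1 (by linarith)
    calc (N : ℝ) * P.card ≤ N * ((p : ℝ) ^ (-(e / 4)) * B.card) := by gcongr
      _ ≤ N * ((p : ℝ) ^ (-d) * B.card) := by gcongr
      _ = (p : ℝ) ^ (-d) * N * B.card := by ring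

theorem INE (h1 : CAE_stmt) (h2 : CASEB_stmt) (h3 : LCE_stmt) : INE_stmt := by
  intro ε hε hε1
  obtain ⟨e, hε8⟩ : ∃ e, ε = 8 * e := ⟨ε / 8, by ring⟩
  have he0 : 0 < e := by linarith
  have he1 : e ≤ 1 := by linarith
  obtain ⟨dA, hdA, pA, hA⟩ := h1 e he0 he1
  obtain ⟨dB, hdB, pB, hB⟩ := h2 e he0 he1
  obtain ⟨d, hd⟩ : ∃ d, d = min (min dA dB) (e / 4) := ⟨_, rfl⟩
  have hd0 : 0 < d := by
    rw [hd]
    exact lt_min (lt_min hdA hdB) (by positivity)
  have hdA' : d ≤ dA := by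
    rw [hd]
    exact (min_le_left _ _).trans (min_le_left _ _)
  have hdB' : d ≤ dB := by
    rw [hd]
    exact (min_le_left _ _).trans (min_le_right _ _)
  have hde : d ≤ e / 4 := by
    rw [hd]
    exact min_le_right _ _
  refine ⟨d / 2, by positivity, max (max (max pA pB) 4) ⌈(102 : ℝ) ^ (2 / d)⌉₊, ?_⟩
  intro p _ hp N B hN1 hN2 hNB χ hχ β hβ
  have hpA : pA < p := lt_of_le_of_lt
    ((le_max_left _ _).trans ((le_max_left _ _).trans (le_max_left _ _))) hp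
  have hpB : pB < p := lt_of_le_of_lt
    ((le_max_right _ _).trans ((le_max_left _ _).trans (le_max_left _ _))) hp
  have hp4 : 4 < p := lt_of_le_of_lt ((le_max_right _ _).trans (le_max_left _ _)) hp
  have hp2 : (102 : ℝ) ^ (2 / d) ≤ p := by
    have : ⌈(102 : ℝ) ^ (2 / d)⌉₊ < p := lt_of_le_of_lt (le_max_right _ _) hp
    exact (Nat.le_ceil _).trans (by exact_mod_cast this.le)
  have hp1 : (1 : ℝ) ≤ p := by
    have := (Fact.out : p.Prime).one_lt
    exact_mod_cast this.le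
  have hp0 : (0 : ℝ) < p := by linarith
  have h2d : (102 : ℝ) ≤ (p : ℝ) ^ (d / 2) := by
    calc (102 : ℝ) = ((102 : ℝ) ^ (2 / d)) ^ (d / 2) := by
          rw [← Real.rpow_mul (by norm_num)]
          have : 2 / d * (d / 2) = 1 := by field_simp
          rw [this, Real.rpow_one]
      _ ≤ (p : ℝ) ^ (d / 2) := by
          refine Real.rpow_le_rpow (by positivity) hp2 (by positivity)
  classical
  obtain ⟨L, hL⟩ : ∃ L : ℕ, L = ⌈(N : ℝ) * (p : ℝ) ^ (-(e / 4))⌉₊ := ⟨_, rfl⟩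
  have hL1 : (N : ℝ) * (p : ℝ) ^ (-(e / 4)) ≤ L := by
    rw [hL]
    exact Nat.le_ceil _
  have hx1 : (1 : ℝ) ≤ (N : ℝ) * (p : ℝ) ^ (-(e / 4)) := by
    calc (1 : ℝ) ≤ (p : ℝ) ^ (ε + -(e / 4)) := by
          refine Real.one_le_rpow hp1 (by linarith)
      _ = (p : ℝ) ^ ε * (p : ℝ) ^ (-(e / 4)) := Real.rpow_add hp0 _ _
      _ ≤ (N : ℝ) * (p : ℝ) ^ (-(e / 4)) := by gcongr
  have hL2 : (L : ℝ) ≤ 2 * N * (p : ℝ) ^ (-(e / 4)) := by
    rw [hL]
    have := Nat.ceil_lt_add_one (show (0 : ℝ) ≤ (N : ℝ) * (p : ℝ) ^ (-(e / 4)) by linarith)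
    linarith
  have hL1' : 1 ≤ L := by
    have : (1 : ℝ) ≤ L := hx1.trans hL1
    exact_mod_cast this
  have hN0 : (0 : ℝ) ≤ N := Nat.cast_nonneg _
  have hLN : L ≤ N := by
    rw [hL]
    apply Nat.ceil_le.2
    have : (p : ℝ) ^ (-(e / 4)) ≤ 1 := Real.rpow_le_one_of_one_le_of_nonpos hp1 (by linarith)
    calc (N : ℝ) * (p : ℝ) ^ (-(e / 4)) ≤ N * 1 := by gcongr
      _ = N := mul_one _
  have h2N : 2 * N < p := by
    by_contra hcon
    push Not at hcon
    have h5 : p ^ 2 ≤ 4 * N ^ 2 := by nlinarith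
    have h6 : p ^ 2 ≤ 4 * p := by linarith
    have h7 : p * p ≤ 4 * p := by rw [← sq]; exact h6
    have h8 : p ≤ 4 := Nat.le_of_mul_le_mul_right h7 (by omega)
    omega
  have hN' : (p : ℝ) ^ e ≤ N :=
    (Real.rpow_le_rpow_of_exponent_le hp1 (by linarith)).trans hN1
  have hK1 : (1 : ℝ) ≤ (p : ℝ) ^ e := Real.one_le_rpow hp1 he0.le
  obtain ⟨B', hB'B, hcells, hcut, hen⟩ := h3 p N L ((p : ℝ) ^ e) B hL1' hLN h2N hK1
  -- the energy of the cells of `B'`
  obtain ⟨EE, hEE⟩ : ∃ EE : ℝ, EE = ∑ j ∈ range (p / L + 1),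
    (en (cl B' L j) : ℝ) / ((cl B' L j).card : ℝ) ^ 2 := ⟨_, rfl⟩
  rw [← hEE] at hen
  have hloc0 : 0 ≤ loc B N := by
    unfold loc
    positivity
  have hEN : (p : ℝ) ^ (1 / 2 + 5 * e) * EE ≤ N * (B.card : ℝ) ^ 2 := by
    calc (p : ℝ) ^ (1 / 2 + 5 * e) * EE
        ≤ (p : ℝ) ^ (1 / 2 + 5 * e) * (((p : ℝ) ^ e) ^ 3 * loc B N) := by gcongr
      _ = (p : ℝ) ^ (1 / 2 + ε) * loc B N := by
          rw [← mul_assoc, ← Real.rpow_natCast, ← Real.rpow_mul hp0.le, ← Real.rpow_add hp0, hε8]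
          congr 2
          push_cast
          ring
      _ ≤ N * (B.card : ℝ) ^ 2 := hNB
  have hcard' : ((B \ B').card : ℝ) ≤ 100 * (p : ℝ) ^ (-(e / 2)) * B.card := by
    have hNL : (N : ℝ) / L ≤ (p : ℝ) ^ (e / 4) := by
      rw [div_le_iff₀ (by exact_mod_cast hL1')]
      calc (N : ℝ) = (p : ℝ) ^ (e / 4) * (N * (p : ℝ) ^ (-(e / 4))) := by
            have : (p : ℝ) ^ (e / 4) * (p : ℝ) ^ (-(e / 4)) = 1 := by
              rw [← Real.rpow_add hp0]
              simp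
            calc (N : ℝ) = N * 1 := (mul_one _).symm
              _ = N * ((p : ℝ) ^ (e / 4) * (p : ℝ) ^ (-(e / 4))) := by rw [this]
              _ = _ := by ring
        _ ≤ (p : ℝ) ^ (e / 4) * L := by gcongr
    have h5 : ((N : ℝ) / L) ^ 2 ≤ (p : ℝ) ^ (e / 2) := by
      calc ((N : ℝ) / L) ^ 2 ≤ ((p : ℝ) ^ (e / 4)) ^ 2 := by gcongr
        _ = (p : ℝ) ^ (e / 2) := by
          rw [← Real.rpow_natCast, ← Real.rpow_mul hp0.le]
          congr 1
          push_cast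
          ring
    have h6 : (p : ℝ) ^ e * ((B \ B').card : ℝ) ≤
        (p : ℝ) ^ e * (100 * (p : ℝ) ^ (-(e / 2)) * B.card) := by
      calc (p : ℝ) ^ e * ((B \ B').card : ℝ) ≤ 100 * ((N : ℝ) / L) ^ 2 * B.card := hcut
        _ ≤ 100 * (p : ℝ) ^ (e / 2) * B.card := by gcongr
        _ = (p : ℝ) ^ e * (100 * (p : ℝ) ^ (-(e / 2)) * B.card) := by
          have : (p : ℝ) ^ (e / 2) = (p : ℝ) ^ e * (p : ℝ) ^ (-(e / 2)) := by
            rw [← Real.rpow_add hp0]
            congr 1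
            ring
          rw [this]
          ring
    exact le_of_mul_le_mul_left h6 (by positivity)
  -- the two parts of `B'`
  obtain ⟨τ, hτ⟩ : ∃ τ : ℝ, τ = (p : ℝ) ^ (e / 16) := ⟨_, rfl⟩
  have hτ0 : 0 < τ := by
    rw [hτ]
    positivity
  obtain ⟨P, hP⟩ : ∃ P : Finset (ZMod p), P =
    B'.filter fun b => τ ≤ ((cl B' L (b.val / L)).card : ℝ) := ⟨_, rfl⟩
  obtain ⟨R, hR⟩ : ∃ R : Finset (ZMod p), R =
    B'.filter fun b => ¬ τ ≤ ((cl B' L (b.val / L)).card : ℝ) := ⟨_, rfl⟩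
  have hmP : ∀ b, b ∈ P ↔ b ∈ B' ∧ τ ≤ ((cl B' L (b.val / L)).card : ℝ) := by
    intro b
    rw [hP, Finset.mem_filter]
  have hmR : ∀ b, b ∈ R ↔ b ∈ B' ∧ ¬ τ ≤ ((cl B' L (b.val / L)).card : ℝ) := by
    intro b
    rw [hR, Finset.mem_filter]
  have hmcl : ∀ (X : Finset (ZMod p)) (j : ℕ) (b : ZMod p), b ∈ cl X L j ↔ b ∈ X ∧ b.val / L = j := by
    intro X j b
    unfold cl
    rw [Finset.mem_filter]
  have hclP : ∀ j, cl P L j = ∅ ∨ (τ ≤ ((cl P L j).card : ℝ) ∧ cl P L j = cl B' L j) := by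
    intro j
    by_cases hj : τ ≤ ((cl B' L j).card : ℝ)
    · right
      have : cl P L j = cl B' L j := by
        ext b
        rw [hmcl, hmcl, hmP]
        constructor
        · rintro ⟨⟨a1, -⟩, a2⟩
          exact ⟨a1, a2⟩
        · rintro ⟨a1, a2⟩
          refine ⟨⟨a1, ?_⟩, a2⟩
          rw [a2]
          exact hj
      rw [this]
      exact ⟨hj, rfl⟩
    · left
      rw [Finset.eq_empty_iff_forall_notMem]
      intro b hb
      rw [hmcl, hmP] at hb
      apply hj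
      rw [← hb.2]
      exact hb.1.2
  have hclR : ∀ j, cl R L j = ∅ ∨ (((cl R L j).card : ℝ) ≤ τ ∧ cl R L j = cl B' L j) := by
    intro j
    by_cases hj : τ ≤ ((cl B' L j).card : ℝ)
    · left
      rw [Finset.eq_empty_iff_forall_notMem]
      intro b hb
      rw [hmcl, hmR] at hb
      apply hb.1.2
      rw [hb.2]
      exact hj
    · right
      have : cl R L j = cl B' L j := by
        ext b
        rw [hmcl, hmcl, hmR]
        constructor
        · rintro ⟨⟨a1, -⟩, a2⟩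
          exact ⟨a1, a2⟩
        · rintro ⟨a1, a2⟩
          refine ⟨⟨a1, ?_⟩, a2⟩
          rw [a2]
          exact hj
      rw [this]
      exact ⟨(not_le.1 hj).le, rfl⟩
  have hPB : P ⊆ B := by
    intro b hb
    exact hB'B ((hmP b).1 hb).1
  have hRB : R ⊆ B := by
    intro b hb
    exact hB'B ((hmR b).1 hb).1
  have hterm0 : ∀ j, 0 ≤ (en (cl B' L j) : ℝ) / ((cl B' L j).card : ℝ) ^ 2 := by
    intro j
    positivity
  -- the number of points of `R`
  have hcardR : (R.card : ℝ) = ∑ j ∈ range (p / L + 1), ((cl R L j).card : ℝ) := by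
    have h5 : R.card = ∑ j ∈ range (p / L + 1), (cl R L j).card := by
      have : ∀ j, cl R L j = R.filter fun b => b.val / L = j := by
        intro j
        ext b
        rw [hmcl, Finset.mem_filter]
      simp_rw [this]
      apply Finset.card_eq_sum_card_fiberwise
      intro b _
      have hb : b.val < p := ZMod.val_lt b
      have hbL : b.val / L ≤ p / L := Nat.div_le_div_right hb.le
      simp only [Finset.coe_range, Set.mem_Iio]
      omega
    exact_mod_cast h5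
  have hREE : (R.card : ℝ) ≤ τ * EE := by
    rw [hcardR, hEE, Finset.mul_sum]
    refine Finset.sum_le_sum fun j _ => ?_
    rcases hclR j with h | ⟨h5, h6⟩
    · rw [h, Finset.card_empty, Nat.cast_zero]
      exact mul_nonneg hτ0.le (hterm0 j)
    · rw [← h6]
      rcases Nat.eq_zero_or_pos (cl R L j).card with h7 | h7
      · rw [h7, Nat.cast_zero]
        positivity
      · have h8 : (1 : ℝ) ≤ (en (cl R L j) : ℝ) / ((cl R L j).card : ℝ) ^ 2 := by
          rw [le_div_iff₀ (by positivity), one_mul]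
          exact_mod_cast INE_en (cl R L j)
        calc ((cl R L j).card : ℝ) ≤ τ * 1 := by linarith
          _ ≤ _ := by gcongr
  have hsplit : ∑ n ∈ range N, ‖∑ b ∈ B, β b * χ ((n : ZMod p) + b)‖ ≤
      ∑ n ∈ range N, ‖∑ b ∈ P, β b * χ ((n : ZMod p) + b)‖ +
      ∑ n ∈ range N, ‖∑ b ∈ R, β b * χ ((n : ZMod p) + b)‖ +
      ∑ n ∈ range N, ‖∑ b ∈ B \ B', β b * χ ((n : ZMod p) + b)‖ := by
    rw [← Finset.sum_add_distrib, ← Finset.sum_add_distrib]
    refine Finset.sum_le_sum fun n _ => ?_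
    have h5 : ∑ b ∈ B, β b * χ ((n : ZMod p) + b) = ∑ b ∈ P, β b * χ ((n : ZMod p) + b) +
        ∑ b ∈ R, β b * χ ((n : ZMod p) + b) + ∑ b ∈ B \ B', β b * χ ((n : ZMod p) + b) := by
      have h6 : ∑ b ∈ B', β b * χ ((n : ZMod p) + b) = ∑ b ∈ P, β b * χ ((n : ZMod p) + b) +
        ∑ b ∈ R, β b * χ ((n : ZMod p) + b) := by
        rw [hP, hR]
        exact (Finset.sum_filter_add_sum_filter_not B' _ _).symm
      rw [← h6, add_comm]
      exact (Finset.sum_sdiff hB'B).symm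
    rw [h5]
    exact (norm_add_le _ _).trans (add_le_add (norm_add_le _ _) le_rfl)
  have hSP := INE_part p e d dA hde hdA' N B P hPB χ β hβ (fun hc => by
    refine hA p hpA N L P hN' hN2 ?_ hL1 hL2 ?_ χ hχ β hβ
    · have h5 : ∑ j ∈ range (p / L + 1), (en (cl P L j) : ℝ) / ((cl P L j).card : ℝ) ^ 2 ≤ EE := by
        rw [hEE]
        refine Finset.sum_le_sum fun j _ => ?_
        rcases hclP j with h | ⟨-, h⟩
        · rw [h, Finset.card_empty]
          simp only [Nat.cast_zero, ne_eq, OfNat.ofNat_ne_zero, not_false_eq_true, zero_pow,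
            div_zero]
          exact hterm0 j
        · rw [h]
      have h6 : (B.card : ℝ) ≤ (p : ℝ) ^ (e / 4) * P.card := by
        calc (B.card : ℝ) = (p : ℝ) ^ (e / 4) * ((p : ℝ) ^ (-(e / 4)) * B.card) := by
              rw [← mul_assoc, ← Real.rpow_add hp0]
              simp
          _ ≤ (p : ℝ) ^ (e / 4) * P.card := by gcongr
      have h7 : (B.card : ℝ) ^ 2 ≤ (p : ℝ) ^ (e / 2) * (P.card : ℝ) ^ 2 := by
        calc (B.card : ℝ) ^ 2 ≤ ((p : ℝ) ^ (e / 4) * P.card) ^ 2 := by gcongr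
          _ = (p : ℝ) ^ (e / 2) * (P.card : ℝ) ^ 2 := by
            rw [mul_pow, ← Real.rpow_natCast ((p : ℝ) ^ (e / 4)) 2, ← Real.rpow_mul hp0.le]
            congr 2
            push_cast
            ring
      have h8 : (p : ℝ) ^ (1 / 2 + 5 * e) = (p : ℝ) ^ (4 * e) * (p : ℝ) ^ (1 / 2 + e) := by
        rw [← Real.rpow_add hp0]
        congr 1
        ring
      have h9 : (p : ℝ) ^ (e / 2) ≤ (p : ℝ) ^ (4 * e) :=
        Real.rpow_le_rpow_of_exponent_le hp1 (by linarith)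
      have h10 : (p : ℝ) ^ (4 * e) * ((p : ℝ) ^ (1 / 2 + e) * EE) ≤
          (p : ℝ) ^ (4 * e) * (N * (P.card : ℝ) ^ 2) := by
        calc (p : ℝ) ^ (4 * e) * ((p : ℝ) ^ (1 / 2 + e) * EE)
            = (p : ℝ) ^ (1 / 2 + 5 * e) * EE := by rw [h8]; ring
          _ ≤ N * (B.card : ℝ) ^ 2 := hEN
          _ ≤ N * ((p : ℝ) ^ (e / 2) * (P.card : ℝ) ^ 2) := by gcongr
          _ ≤ N * ((p : ℝ) ^ (4 * e) * (P.card : ℝ) ^ 2) := by gcongr
          _ = _ := by ring
      have h11 := le_of_mul_le_mul_left h10 (by positivity)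
      refine le_trans ?_ h11
      gcongr
    · intro j
      rcases hclP j with h | ⟨h, -⟩
      · left; exact h
      · right
        rw [← hτ]
        exact h)
  have hSR := INE_part p e d dB hde hdB' N B R hRB χ β hβ (fun hc => by
    rcases Nat.eq_zero_or_pos R.card with hR0 | hR0
    · have hRe : R = ∅ := Finset.card_eq_zero.1 hR0
      rw [hRe]
      simp
    refine hB p hpB N L R hN' hN2 ?_ hL1 hL2 ?_ χ hχ β hβ
    · have hR0' : (0 : ℝ) < R.card := by exact_mod_cast hR0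
      have h6 : (B.card : ℝ) ≤ (p : ℝ) ^ (e / 4) * R.card := by
        calc (B.card : ℝ) = (p : ℝ) ^ (e / 4) * ((p : ℝ) ^ (-(e / 4)) * B.card) := by
              rw [← mul_assoc, ← Real.rpow_add hp0]
              simp
          _ ≤ (p : ℝ) ^ (e / 4) * R.card := by gcongr
      have h7 : (B.card : ℝ) ^ 2 ≤ (p : ℝ) ^ (e / 2) * (R.card : ℝ) ^ 2 := by
        calc (B.card : ℝ) ^ 2 ≤ ((p : ℝ) ^ (e / 4) * R.card) ^ 2 := by gcongr
          _ = (p : ℝ) ^ (e / 2) * (R.card : ℝ) ^ 2 := by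
            rw [mul_pow, ← Real.rpow_natCast ((p : ℝ) ^ (e / 4)) 2, ← Real.rpow_mul hp0.le]
            congr 2
            push_cast
            ring
      have h8 : (p : ℝ) ^ (1 / 2 + 5 * e) * R.card ≤
          ((p : ℝ) ^ (e / 16) * (p : ℝ) ^ (e / 2)) * (N * R.card) * R.card := by
        calc (p : ℝ) ^ (1 / 2 + 5 * e) * R.card ≤ (p : ℝ) ^ (1 / 2 + 5 * e) * (τ * EE) := by gcongr
          _ = τ * ((p : ℝ) ^ (1 / 2 + 5 * e) * EE) := by ring
          _ ≤ τ * (N * (B.card : ℝ) ^ 2) := by gcongr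
          _ ≤ τ * (N * ((p : ℝ) ^ (e / 2) * (R.card : ℝ) ^ 2)) := by gcongr
          _ = ((p : ℝ) ^ (e / 16) * (p : ℝ) ^ (e / 2)) * (N * R.card) * R.card := by
            rw [hτ]
            ring
      have h9 := le_of_mul_le_mul_right h8 hR0'
      have h10 : (p : ℝ) ^ (1 / 2 + 5 * e) =
          ((p : ℝ) ^ (e / 16) * (p : ℝ) ^ (e / 2)) * (p : ℝ) ^ (1 / 2 + 5 * e - e / 16 - e / 2) := by
        rw [← Real.rpow_add hp0, ← Real.rpow_add hp0]
        congr 1
        ring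
      rw [h10] at h9
      have h11 := le_of_mul_le_mul_left h9 (by positivity)
      exact (Real.rpow_le_rpow_of_exponent_le hp1 (by linarith)).trans h11
    · intro j
      rw [← hτ]
      rcases hclR j with h | ⟨h, -⟩
      · rw [h, Finset.card_empty, Nat.cast_zero]
        exact hτ0.le
      · exact h)
  have hS3 : ∑ n ∈ range N, ‖∑ b ∈ B \ B', β b * χ ((n : ZMod p) + b)‖ ≤
      100 * ((p : ℝ) ^ (-d) * N * B.card) := by
    refine (INE_trivial p N _ χ β hβ).trans ?_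
    have h5 : (p : ℝ) ^ (-(e / 2)) ≤ (p : ℝ) ^ (-d) :=
      Real.rpow_le_rpow_of_exponent_le hp1 (by linarith)
    calc (N : ℝ) * ((B \ B').card : ℝ) ≤ N * (100 * (p : ℝ) ^ (-(e / 2)) * B.card) := by gcongr
      _ ≤ N * (100 * (p : ℝ) ^ (-d) * B.card) := by gcongr
      _ = 100 * ((p : ℝ) ^ (-d) * N * B.card) := by ring
  have hfin : 102 * ((p : ℝ) ^ (-d) * N * B.card) ≤ (p : ℝ) ^ (-(d / 2)) * N * B.card := by
    have e1 : (p : ℝ) ^ (-(d / 2)) = (p : ℝ) ^ (d / 2) * (p : ℝ) ^ (-d) := by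
      rw [← Real.rpow_add hp0]
      congr 1
      ring
    rw [e1]
    have h6 : (0 : ℝ) ≤ (p : ℝ) ^ (-d) * N * B.card := by positivity
    nlinarith
  linarith

end Pool.Agent.PY2
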